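import Pool.Agent.W788.NW.Stm

/-!
# Project NW: comparison of the spine generator with the plain one
-/

namespace Pool.Agent.W856.NW

open Finset Pool.Agent.W788.NV Pool.Agent.W788.NW

theorem sm_pos {V : Type} [DecidableEq V] {q : ℕ} (a b : Fin q) (e : (V × Fin q) ⊕ (V × V))
    (v0 : V) (Ψ : Mp V q) (hs : site e = v0) : (sm a b (Sum.inl e) (v0, Ψ)).2 = Ψ :=
  congrArg Prod.snd (if_pos hs : sm a b (Sum.inl e) (v0, Ψ) = (v0, Ψ))

theorem sm_neg {V : Type} [DecidableEq V] {q : ℕ} (a b : Fin q) (e : (V × Fin q) ⊕ (V × V))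
    (v0 : V) (Ψ : Mp V q) (hs : ¬ site e = v0) :
    (sm a b (Sum.inl e) (v0, Ψ)).2 = fun x => Ψ (actv v0 a e x) :=
  congrArg Prod.snd (if_neg hs :
    sm a b (Sum.inl e) (v0, Ψ) = (v0, fun x => Ψ (actv v0 a e x)))

theorem mrate_le {V : Type} [Fintype V] (G : SimpleGraph V) (q : ℕ) (θ : ℝ) (h0 : 0 ≤ θ)
    (hd : ∀ v, 1 ≤ dg G v) (y u : V) (hA : G.Adj y u) :
    mrate G q θ (Sum.inr (y, u)) ≤ 1 := by
  simp only [mrate, hA, if_true]
  have : (1 : ℝ) ≤ (dg G y : ℝ) := by exact_mod_cast hd y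
  rw [div_le_one (by linarith)]
  linarith

theorem mrate_zero {V : Type} [Fintype V] (G : SimpleGraph V) (q : ℕ) (θ : ℝ)
    (y u : V) (hA : ¬ G.Adj y u) :
    mrate G q θ (Sum.inr (y, u)) = 0 := by
  simp only [mrate, hA, if_false]

theorem nua_ (h1 : S_DR) (h2 : S_POS) (h3 : S_TOT) : S_NUA := by
  classical
  intro V _ _ G q θ hq h0 h1' hd a b ν z E p hν hE hc hdep
  obtain ⟨v0, Ψ⟩ := p
  simp only at hdep ⊢
  have hpos : ∀ Φ : Mp V q, 0 ≤ hit ν z Φ := fun Φ => (h2 V q ν z Φ v0 (fun _ => a) hν).1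
  have hEH : ∀ (y : V) (c : Fin q),
      hit ν z (fun x => Ψ (Function.update x y c)) ≤ q * E * hit ν z Ψ := fun y c =>
    (h2 V q ν z Ψ y (fun _ => a) hν).2.2.2 E c hE (fun x c' => hc x y c')
  have hr0 : ∀ e, 0 ≤ mrate G q θ e := (h3 V G q θ hq h0 h1' hd).1
  have hQ : 0 ≤ q * E * hit ν z Ψ := by
    have := hpos Ψ
    positivity
  have hnb : nb G (v0, Ψ) = ∑ y, (if G.Adj v0 y ∧ dep Ψ y ≠ ∅ then (1 : ℝ) else 0) := by
    simp only [nb]
    rw [Finset.card_filter]
    push_cast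
    rfl
  have hmod : ∀ y : V, dep Ψ y = ∅ → ∀ g : (V → Fin q) → Fin q,
      (fun x => Ψ (Function.update x y (g x))) = Ψ := by
    intro y hy g
    funext x
    exact (h1 V q Ψ y).1 hy x (g x)
  have key : ∀ (y : V) (r K : ℝ), 0 ≤ r → (G.Adj v0 y → r ≤ 1) → (¬ G.Adj v0 y → r = 0) →
      (dep Ψ y = ∅ → K = 0) → K ≤ q * E * hit ν z Ψ →
      r * K ≤ (if G.Adj v0 y ∧ dep Ψ y ≠ ∅ then (1 : ℝ) else 0) * (q * E * hit ν z Ψ) := by
    intro y r K hr hr1 hr2 hK hK2
    by_cases hA : G.Adj v0 y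
    · by_cases hD : dep Ψ y = ∅
      · rw [hK hD]
        simp [hD]
      · rw [if_pos ⟨hA, hD⟩, one_mul]
        calc r * K ≤ r * (q * E * hit ν z Ψ) := mul_le_mul_of_nonneg_left hK2 hr
          _ ≤ 1 * (q * E * hit ν z Ψ) := mul_le_mul_of_nonneg_right (hr1 hA) hQ
          _ = _ := one_mul _
    · rw [hr2 hA, if_neg (fun h => hA h.1)]
      simp
  have part1 : ∑ e : (V × Fin q) ⊕ (V × V), mrate G q θ e *
      (hit ν z (sm a b (Sum.inl e) (v0, Ψ)).2 - hit ν z (mR e Ψ)) ≤
      ∑ y, (if G.Adj v0 y ∧ dep Ψ y ≠ ∅ then (1 : ℝ) else 0) * (q * E * hit ν z Ψ) := by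
    rw [Fintype.sum_sum_type]
    have z1 : ∑ e : V × Fin q, mrate G q θ (Sum.inl e) *
        (hit ν z (sm a b (Sum.inl (Sum.inl e)) (v0, Ψ)).2 - hit ν z (mR (Sum.inl e) Ψ)) = 0 := by
      apply Finset.sum_eq_zero
      rintro ⟨y, c⟩ -
      have : (sm a b (Sum.inl (Sum.inl (y, c))) (v0, Ψ)).2 = mR (Sum.inl (y, c)) Ψ := by
        by_cases hy : y = v0
        · rw [sm_pos a b (Sum.inl (y, c)) v0 Ψ hy]
          subst hy
          funext x
          exact ((h1 V q Ψ y).1 hdep x c).symm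
        · rw [sm_neg a b (Sum.inl (y, c)) v0 Ψ hy]
          rfl
      rw [this, sub_self, mul_zero]
    rw [z1, zero_add, Fintype.sum_prod_type]
    apply Finset.sum_le_sum
    intro y _
    have z2 : ∀ u, mrate G q θ (Sum.inr (y, u)) *
        (hit ν z (sm a b (Sum.inl (Sum.inr (y, u))) (v0, Ψ)).2 -
          hit ν z (mR (Sum.inr (y, u)) Ψ)) ≤ if u = v0 then
        (if G.Adj v0 y ∧ dep Ψ y ≠ ∅ then (1 : ℝ) else 0) * (q * E * hit ν z Ψ) else 0 := by
      intro u
      by_cases hy : y = v0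
      · have : (sm a b (Sum.inl (Sum.inr (y, u))) (v0, Ψ)).2 = mR (Sum.inr (y, u)) Ψ := by
          rw [sm_pos a b (Sum.inr (y, u)) v0 Ψ hy]
          subst hy
          funext x
          exact ((h1 V q Ψ y).1 hdep x (x u)).symm
        rw [this, sub_self, mul_zero]
        split_ifs
        · rw [one_mul]; exact hQ
        · rw [zero_mul]
        · exact le_rfl
      · have e1 : (sm a b (Sum.inl (Sum.inr (y, u))) (v0, Ψ)).2 =
            fun x => Ψ (actv v0 a (Sum.inr (y, u)) x) := sm_neg a b _ v0 Ψ hy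
        by_cases hu : u = v0
        · rw [if_pos hu]
          subst hu
          have e2 : (fun x => Ψ (actv u a (Sum.inr (y, u)) x)) =
              fun x => Ψ (Function.update x y a) := by
            funext x
            simp only [actv, if_true]
          have e3 : mR (Sum.inr (y, u)) Ψ = fun x => Ψ (Function.update x y (x u)) := rfl
          rw [e1, e2, e3]
          apply key y
          · exact hr0 _
          · intro hA
            exact mrate_le G q θ h0 hd y u hA.symm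
          · intro hA
            exact mrate_zero G q θ y u (fun h => hA h.symm)
          · intro hD
            rw [hmod y hD (fun _ => a), hmod y hD (fun x => x u), sub_self]
          · have := hEH y a
            have := hpos (fun x => Ψ (Function.update x y (x u)))
            linarith
        · rw [if_neg hu]
          have e2 : (fun x => Ψ (actv v0 a (Sum.inr (y, u)) x)) = mR (Sum.inr (y, u)) Ψ := by
            funext x
            simp only [actv, mR, act, hu, if_false]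
          rw [e1, e2, sub_self, mul_zero]
    calc _ ≤ ∑ u, (if u = v0 then
        (if G.Adj v0 y ∧ dep Ψ y ≠ ∅ then (1 : ℝ) else 0) * (q * E * hit ν z Ψ) else 0) :=
          Finset.sum_le_sum fun u _ => z2 u
      _ = _ := by rw [Finset.sum_ite_eq' univ v0]; simp
  have part2 : ∑ w : V × V, mrate G q θ (Sum.inr w) *
      (hit ν z (sm a b (Sum.inr w) (v0, Ψ)).2 - hit ν z Ψ) ≤
      ∑ y, (if G.Adj v0 y ∧ dep Ψ y ≠ ∅ then (1 : ℝ) else 0) * (q * E * hit ν z Ψ) := by
    rw [Fintype.sum_prod_type, Finset.sum_comm]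
    apply Finset.sum_le_sum
    intro y _
    have z2 : ∀ u, mrate G q θ (Sum.inr (u, y)) *
        (hit ν z (sm a b (Sum.inr (u, y)) (v0, Ψ)).2 - hit ν z Ψ) ≤ if u = v0 then
        (if G.Adj v0 y ∧ dep Ψ y ≠ ∅ then (1 : ℝ) else 0) * (q * E * hit ν z Ψ) else 0 := by
      intro u
      by_cases hu : u = v0
      · rw [if_pos hu]
        subst hu
        have e1 : (sm a b (Sum.inr (u, y)) (u, Ψ)).2 = fun x => Ψ (Function.update x y b) := by
          simp only [sm, if_true]
        rw [e1]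
        apply key y
        · exact hr0 _
        · intro hA
          exact mrate_le G q θ h0 hd u y hA
        · intro hA
          exact mrate_zero G q θ u y hA
        · intro hD
          rw [hmod y hD (fun _ => b), sub_self]
        · have := hEH y b
          have := hpos Ψ
          linarith
      · rw [if_neg hu]
        have e1 : (sm a b (Sum.inr (u, y)) (v0, Ψ)).2 = Ψ := by
          simp only [sm, hu, if_false]
        rw [e1, sub_self, mul_zero]
    calc _ ≤ ∑ u, (if u = v0 then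
        (if G.Adj v0 y ∧ dep Ψ y ≠ ∅ then (1 : ℝ) else 0) * (q * E * hit ν z Ψ) else 0) :=
          Finset.sum_le_sum fun u _ => z2 u
      _ = _ := by rw [Finset.sum_ite_eq' univ v0]; simp
  have hsplit : gf (srate G q θ) (sm a b) (fun p => hit ν z p.2) (v0, Ψ) -
      gf (mrate G q θ) (mR (V := V) (q := q)) (hit ν z) Ψ =
      ∑ e : (V × Fin q) ⊕ (V × V), mrate G q θ e *
        (hit ν z (sm a b (Sum.inl e) (v0, Ψ)).2 - hit ν z (mR e Ψ)) +
      ∑ w : V × V, mrate G q θ (Sum.inr w) *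
        (hit ν z (sm a b (Sum.inr w) (v0, Ψ)).2 - hit ν z Ψ) := by
    simp only [gf]
    rw [Fintype.sum_sum_type (fun e : ((V × Fin q) ⊕ (V × V)) ⊕ (V × V) => _)]
    simp only [srate]
    rw [add_sub_right_comm, ← Finset.sum_sub_distrib]
    congr 1
    apply Finset.sum_congr rfl
    intro e _
    ring
  rw [hsplit, hnb]
  have hs : ∑ y, (if G.Adj v0 y ∧ dep Ψ y ≠ ∅ then (1 : ℝ) else 0) * (q * E * hit ν z Ψ) =
      (∑ y, (if G.Adj v0 y ∧ dep Ψ y ≠ ∅ then (1 : ℝ) else 0)) * (q * E * hit ν z Ψ) := by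
    rw [Finset.sum_mul]
  rw [hs] at part1 part2
  linarith

end Pool.Agent.W856.NW
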